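import Mathlib

/-!
# MP_99eff6_co, Q1, for families in which every direction occurs

Let `F ⊆ P([n])` be diamond-saturated with `|F| = n + 1`. If `F` contains `∅` or `[n]`, or if for
every `i` there are two members of `F` that differ exactly by the element `i`, then `F` is a
maximal chain, or `{∅} ∪ {{i}}`, or `{[n]} ∪ {[n] \ {i}}`.
-/

namespace Pool.Agent.Results.MP_99eff6_co.AllDirections

variable {n : ℕ}

/-- `F` contains an induced copy of the diamond `Q₂`, the lattice of subsets of a two-element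
set: there is an order embedding (`p ≤ q` iff `f p ⊆ f q`) of `Q₂` into `P([n])` with all values
in `F`. -/
def HasDiamond (F : Finset (Finset (Fin n))) : Prop :=
  ∃ f : Finset (Fin 2) ↪o Finset (Fin n), ∀ p, f p ∈ F

/-- `F` is diamond-saturated: it has no induced diamond, and adding any missing set creates one. -/
def DiamondSaturated (F : Finset (Finset (Fin n))) : Prop :=
  ¬ HasDiamond F ∧ ∀ S : Finset (Fin n), S ∉ F → HasDiamond (insert S F)

theorem hasDiamond_iff (F : Finset (Finset (Fin n))) :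
    HasDiamond F ↔ ∃ A ∈ F, ∃ X ∈ F, ∃ Y ∈ F, ∃ B ∈ F,
      A ⊂ X ∧ A ⊂ Y ∧ X ⊂ B ∧ Y ⊂ B ∧ ¬ X ⊆ Y ∧ ¬ Y ⊆ X := by
  constructor
  · rintro ⟨f, hf⟩
    refine ⟨f ∅, hf _, f {0}, hf _, f {1}, hf _, f {0, 1}, hf _, ?_, ?_, ?_, ?_, ?_, ?_⟩
    · exact f.lt_iff_lt.2 (by decide)
    · exact f.lt_iff_lt.2 (by decide)
    · exact f.lt_iff_lt.2 (by decide)
    · exact f.lt_iff_lt.2 (by decide)
    · intro h
      exact absurd (f.le_iff_le.1 h) (by decide)
    · intro h
      exact absurd (f.le_iff_le.1 h) (by decide)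
  · rintro ⟨A, hA, X, hX, Y, hY, B, hB, hAX, hAY, hXB, hYB, hXY, hYX⟩
    have hcases : ∀ p : Finset (Fin 2), p = ∅ ∨ p = {0} ∨ p = {1} ∨ p = {0, 1} := by decide
    let g : Finset (Fin 2) → Finset (Fin n) := fun p =>
      if p = ∅ then A else if p = {0} then X else if p = {1} then Y else B
    have g0 : g ∅ = A := by simp [g]
    have g1 : g {0} = X := by simp [g]
    have g2 : g {1} = Y := by
      have : ({1} : Finset (Fin 2)) ≠ {0} := by decide
      simp [g, this]
    have g3 : g {0, 1} = B := by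
      have h1 : ({0, 1} : Finset (Fin 2)) ≠ ∅ := by decide
      have h2 : ({0, 1} : Finset (Fin 2)) ≠ {0} := by decide
      have h3 : ({0, 1} : Finset (Fin 2)) ≠ {1} := by decide
      simp only [g, h1, h2, h3, if_false]
    have key : ∀ p q : Finset (Fin 2), g p ≤ g q ↔ p ≤ q := by
      intro p q
      have hXA : ¬ X ⊆ A := fun h => hAX.2 h
      have hYA : ¬ Y ⊆ A := fun h => hAY.2 h
      have hBX : ¬ B ⊆ X := fun h => hXB.2 h
      have hBY : ¬ B ⊆ Y := fun h => hYB.2 h
      have hBA : ¬ B ⊆ A := fun h => hAX.2 (hXB.1.trans h)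
      have hAB : A ⊆ B := hAX.1.trans hXB.1
      rcases hcases p with rfl | rfl | rfl | rfl <;> rcases hcases q with rfl | rfl | rfl | rfl
      · rw [g0]; exact ⟨fun _ => le_rfl, fun _ => le_rfl⟩
      · rw [g0, g1]; exact ⟨fun _ => by decide, fun _ => hAX.1⟩
      · rw [g0, g2]; exact ⟨fun _ => by decide, fun _ => hAY.1⟩
      · rw [g0, g3]; exact ⟨fun _ => by decide, fun _ => hAB⟩
      · rw [g0, g1]; exact ⟨fun h => absurd h hXA, fun h => absurd h (by decide)⟩
      · rw [g1]; exact ⟨fun _ => le_rfl, fun _ => le_rfl⟩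
      · rw [g1, g2]; exact ⟨fun h => absurd h hXY, fun h => absurd h (by decide)⟩
      · rw [g1, g3]; exact ⟨fun _ => by decide, fun _ => hXB.1⟩
      · rw [g0, g2]; exact ⟨fun h => absurd h hYA, fun h => absurd h (by decide)⟩
      · rw [g1, g2]; exact ⟨fun h => absurd h hYX, fun h => absurd h (by decide)⟩
      · rw [g2]; exact ⟨fun _ => le_rfl, fun _ => le_rfl⟩
      · rw [g2, g3]; exact ⟨fun _ => by decide, fun _ => hYB.1⟩
      · rw [g0, g3]; exact ⟨fun h => absurd h hBA, fun h => absurd h (by decide)⟩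
      · rw [g1, g3]; exact ⟨fun h => absurd h hBX, fun h => absurd h (by decide)⟩
      · rw [g2, g3]; exact ⟨fun h => absurd h hBY, fun h => absurd h (by decide)⟩
      · rw [g3]; exact ⟨fun _ => le_rfl, fun _ => le_rfl⟩
    refine ⟨OrderEmbedding.ofMapLEIff g key, ?_⟩
    intro p
    show g p ∈ F
    rcases hcases p with rfl | rfl | rfl | rfl
    · rw [g0]; exact hA
    · rw [g1]; exact hX
    · rw [g2]; exact hY
    · rw [g3]; exact hB

/-- With `∅ ∈ F` and no diamond, the members of `F` below a member form a chain. -/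
theorem chain_below {F : Finset (Finset (Fin n))} (h0 : ∅ ∈ F) (hfree : ¬ HasDiamond F)
    {X Y Z : Finset (Fin n)} (hX : X ∈ F) (hY : Y ∈ F) (hZ : Z ∈ F) (hXZ : X ⊆ Z) (hYZ : Y ⊆ Z) :
    X ⊆ Y ∨ Y ⊆ X := by
  by_contra hcon
  push Not at hcon
  obtain ⟨h1, h2⟩ := hcon
  apply hfree
  rw [hasDiamond_iff]
  refine ⟨∅, h0, X, hX, Y, hY, Z, hZ, ?_, ?_, ?_, ?_, h1, h2⟩
  · exact Finset.ssubset_iff_subset_ne.2 ⟨Finset.empty_subset _, fun h => h1 (h ▸ Finset.empty_subset _)⟩
  · exact Finset.ssubset_iff_subset_ne.2 ⟨Finset.empty_subset _, fun h => h2 (h ▸ Finset.empty_subset _)⟩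
  · exact Finset.ssubset_iff_subset_ne.2 ⟨hXZ, fun h => h2 (h ▸ hYZ)⟩
  · exact Finset.ssubset_iff_subset_ne.2 ⟨hYZ, fun h => h1 (h ▸ hXZ)⟩

/-- What saturation gives when `∅ ∈ F`. -/
theorem sat_cases {F : Finset (Finset (Fin n))} (h0 : ∅ ∈ F) (hsat : DiamondSaturated F)
    {S : Finset (Fin n)} (hS : S ∉ F) :
    (∃ X ∈ F, ∃ Y ∈ F, X ⊂ S ∧ Y ⊂ S ∧ ¬ X ⊆ Y ∧ ¬ Y ⊆ X) ∨
    (∃ Y ∈ F, ∃ Z ∈ F, Y ⊂ Z ∧ S ⊂ Z ∧ ¬ Y ⊆ S ∧ ¬ S ⊆ Y) := by
  have hd := hsat.2 S hS
  rw [hasDiamond_iff] at hd
  obtain ⟨A, hA, X, hX, Y, hY, B, hB, hAX, hAY, hXB, hYB, hXY, hYX⟩ := hd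
  rw [Finset.mem_insert] at hA hX hY hB
  have hmem : ∀ T, T = S ∨ T ∈ F → T ≠ S → T ∈ F := fun T h hne => h.resolve_left hne
  by_cases hAS : A = S
  · -- bottom
    subst hAS
    exfalso
    have hX' := hmem X hX hAX.ne'
    have hY' := hmem Y hY hAY.ne'
    have hB' := hmem B hB (hAX.trans hXB).ne'
    rcases chain_below h0 hsat.1 hX' hY' hB' hXB.1 hYB.1 with h | h
    · exact hXY h
    · exact hYX h
  by_cases hXS : X = S
  · subst hXS
    right
    exact ⟨Y, hmem Y hY (fun h => hXY (h ▸ subset_rfl)), B, hmem B hB hXB.ne', hYB, hXB, hYX, hXY⟩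
  by_cases hYS : Y = S
  · subst hYS
    right
    exact ⟨X, hmem X hX hXS, B, hmem B hB hYB.ne', hXB, hYB, hXY, hYX⟩
  by_cases hBS : B = S
  · subst hBS
    left
    exact ⟨X, hmem X hX hXS, Y, hmem Y hY hYS, hXB, hYB, hXY, hYX⟩
  · exfalso
    apply hsat.1
    rw [hasDiamond_iff]
    exact ⟨A, hmem A hA hAS, X, hmem X hX hXS, Y, hmem Y hY hYS, B, hmem B hB hBS,
      hAX, hAY, hXB, hYB, hXY, hYX⟩

/-- Every direction `i` occurs as a single step in `F`. -/
theorem exists_step {F : Finset (Finset (Fin n))} (h0 : ∅ ∈ F) (hsat : DiamondSaturated F)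
    (i : Fin n) : ∃ P ∈ F, i ∉ P ∧ insert i P ∈ F := by
  classical
  -- some member contains `i`
  have hV : ∃ V ∈ F, i ∈ V := by
    by_contra hcon
    push Not at hcon
    have hS : ({i} : Finset (Fin n)) ∉ F := fun h => hcon _ h (Finset.mem_singleton_self i)
    rcases sat_cases h0 hsat hS with ⟨X, hX, Y, hY, hXS, hYS, hXY, -⟩ | ⟨Y, hY, Z, hZ, -, hSZ, -, -⟩
    · rw [Finset.ssubset_singleton_iff] at hXS
      exact hXY (hXS ▸ Finset.empty_subset _)
    · exact hcon Z hZ (hSZ.1 (Finset.mem_singleton_self i))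
  obtain ⟨V, hV, hiV⟩ := hV
  let Qs := F.filter (fun P => i ∉ P ∧ ∃ V ∈ F, insert i P ⊆ V)
  have hne : Qs.Nonempty := by
    refine ⟨∅, ?_⟩
    simp only [Qs, Finset.mem_filter]
    refine ⟨h0, by simp, V, hV, ?_⟩
    intro x hx
    simp at hx
    exact hx ▸ hiV
  obtain ⟨P, hP, hmax⟩ := Finset.exists_max_image Qs Finset.card hne
  simp only [Qs, Finset.mem_filter] at hP
  obtain ⟨hPF, hiP, W, hW, hPW⟩ := hP
  refine ⟨P, hPF, hiP, ?_⟩
  by_contra hS
  rcases sat_cases h0 hsat hS with ⟨X, hX, Y, hY, hXS, hYS, hXY, hYX⟩ | ⟨Y, hY, Z, hZ, hYZ, hSZ, hYS, hSY⟩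
  · rcases chain_below h0 hsat.1 hX hY hW (hXS.1.trans hPW) (hYS.1.trans hPW) with h | h
    · exact hXY h
    · exact hYX h
  · have hPS : P ⊆ insert i P := Finset.subset_insert i P
    rcases chain_below h0 hsat.1 hPF hY hZ (hPS.trans hSZ.1) hYZ.1 with h | h
    · have hiY : i ∉ Y := fun hi => hSY (Finset.insert_subset hi h)
      have hYmem : Y ∈ Qs := by
        simp only [Qs, Finset.mem_filter]
        exact ⟨hY, hiY, Z, hZ, Finset.insert_subset (hSZ.1 (Finset.mem_insert_self i P)) hYZ.1⟩
      have hle := hmax Y hYmem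
      have hPY : P = Y := Finset.eq_of_subset_of_card_le h hle
      exact hYS (hPY ▸ hPS)
    · exact hYS (h.trans hPS)

/-- The classification when `∅ ∈ F`. -/
theorem classify_empty {F : Finset (Finset (Fin n))} (h0 : ∅ ∈ F) (hsat : DiamondSaturated F)
    (hcard : F.card = n + 1) :
    (∀ u ∈ F, ∀ v ∈ F, u ⊆ v ∨ v ⊆ u) ∨ (∀ u ∈ F, u.card ≤ 1) := by
  classical
  have hstep := exists_step h0 hsat
  choose P hPF hiP hZF using hstep
  -- two steps into the same member have the same label
  have huniq : ∀ Z ∈ F, ∀ i ∈ Z, ∀ j ∈ Z, Z.erase i ∈ F → Z.erase j ∈ F → i = j := by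
    intro Z hZ i hi j hj h1 h2
    by_contra hne
    rcases chain_below h0 hsat.1 h1 h2 hZ (Finset.erase_subset _ _) (Finset.erase_subset _ _) with h | h
    · have : j ∈ Z.erase i := Finset.mem_erase.2 ⟨fun h => hne h.symm, hj⟩
      exact (Finset.notMem_erase j Z) (h this)
    · have : i ∈ Z.erase j := Finset.mem_erase.2 ⟨hne, hi⟩
      exact (Finset.notMem_erase i Z) (h this)
  have hZinj : Function.Injective (fun i => insert i (P i)) := by
    intro i j hij
    simp only at hij
    refine huniq (insert i (P i)) (hZF i) i (Finset.mem_insert_self _ _) j ?_ ?_ ?_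
    · rw [hij]; exact Finset.mem_insert_self _ _
    · rw [Finset.erase_insert (hiP i)]; exact hPF i
    · rw [hij, Finset.erase_insert (hiP j)]; exact hPF j
  -- the nonempty members are exactly the `insert i (P i)`
  have himg : Finset.univ.image (fun i => insert i (P i)) = F.erase ∅ := by
    apply Finset.eq_of_subset_of_card_le
    · intro Z hZ
      rw [Finset.mem_image] at hZ
      obtain ⟨i, -, rfl⟩ := hZ
      exact Finset.mem_erase.2 ⟨Finset.insert_ne_empty _ _, hZF i⟩
    · rw [Finset.card_erase_of_mem h0, hcard, Finset.card_image_of_injective _ hZinj,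
        Finset.card_univ, Fintype.card_fin]
      simp
  have hform : ∀ Z ∈ F, Z ≠ ∅ → ∃ i, insert i (P i) = Z := by
    intro Z hZ hne
    have : Z ∈ Finset.univ.image (fun i => insert i (P i)) := by
      rw [himg]; exact Finset.mem_erase.2 ⟨hne, hZ⟩
    rw [Finset.mem_image] at this
    obtain ⟨i, -, h⟩ := this
    exact ⟨i, h⟩
  -- if `i ∈ Z ∈ F` then `insert i (P i) ⊆ Z`
  have hbelow : ∀ Z ∈ F, ∀ i ∈ Z, insert i (P i) ⊆ Z := by
    intro Z
    induction Z using Finset.strongInduction with
    | H Z ih =>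
      intro hZ i hi
      obtain ⟨k, hk⟩ := hform Z hZ (Finset.ne_empty_of_mem hi)
      by_cases hki : k = i
      · subst hki; exact hk.le
      · have hiP' : i ∈ P k := by
          rw [← hk] at hi
          rcases Finset.mem_insert.1 hi with h | h
          · exact absurd h.symm hki
          · exact h
        have hlt : P k ⊂ Z := by
          rw [← hk]
          exact Finset.ssubset_insert (hiP k)
        exact (ih (P k) hlt (hPF k) i hiP').trans hlt.1
  by_contra hcon
  push Not at hcon
  obtain ⟨⟨u, hu, v, hv, huv, hvu⟩, w, hw, hw2⟩ := hcon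
  -- a member of size two
  obtain ⟨a, c, hac, haF, hacF⟩ : ∃ a c : Fin n, a ≠ c ∧ ({a} : Finset (Fin n)) ∈ F ∧
      insert c {a} ∈ F := by
    obtain ⟨m, hm, hmin⟩ := Finset.exists_min_image (F.filter (fun Z => 1 < Z.card)) Finset.card
      ⟨w, Finset.mem_filter.2 ⟨hw, hw2⟩⟩
    rw [Finset.mem_filter] at hm
    have hm1 := hm.2
    obtain ⟨k, hk⟩ := hform m hm.1 (Finset.card_pos.1 (by omega)).ne_empty
    have hcardm : m.card = (P k).card + 1 := by
      rw [← hk, Finset.card_insert_of_notMem (hiP k)]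
    have hPk1 : (P k).card = 1 := by
      by_contra hne
      have h2 : 1 < (P k).card := by omega
      have := hmin (P k) (Finset.mem_filter.2 ⟨hPF k, h2⟩)
      omega
    obtain ⟨a, ha⟩ := Finset.card_eq_one.1 hPk1
    refine ⟨a, k, ?_, ?_, ?_⟩
    · rintro rfl
      exact hiP a (ha ▸ Finset.mem_singleton_self a)
    · rw [← ha]; exact hPF k
    · rw [← ha]; exact hZF k
  -- the singleton `{x} ∈ F` has `insert x (P x) = {x}`
  have hsing : ∀ x, ({x} : Finset (Fin n)) ∈ F → insert x (P x) = {x} := by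
    intro x hx
    apply Finset.Subset.antisymm
    · exact hbelow {x} hx x (Finset.mem_singleton_self x)
    · simp
  have hcP : insert c (P c) = insert c {a} := by
    obtain ⟨k, hk⟩ := hform _ hacF (Finset.insert_ne_empty _ _)
    have hkmem : k ∈ insert c ({a} : Finset (Fin n)) := hk ▸ Finset.mem_insert_self _ _
    have hkc : k = c := by
      refine huniq _ hacF k hkmem c (Finset.mem_insert_self _ _) ?_ ?_
      · rw [← hk, Finset.erase_insert (hiP k)]; exact hPF k
      · rw [Finset.erase_insert (by simpa using hac.symm)]; exact haF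
    rw [← hk, hkc]
  have hcnot : ({c} : Finset (Fin n)) ∉ F := by
    intro hc
    rcases chain_below h0 hsat.1 haF hc hacF (by simp) (by simp) with h | h
    · exact hac (by simpa using h)
    · exact hac (by simpa using h : c = a).symm
  by_cases hone : ∃ r, r ≠ a ∧ ({r} : Finset (Fin n)) ∈ F
  · -- two roots
    obtain ⟨r, hra, hrF⟩ := hone
    have hcr : c ≠ r := fun h => hcnot (h ▸ hrF)
    have hnoZ : ∀ Z ∈ F, c ∈ Z → r ∈ Z → False := by
      intro Z hZ hcZ hrZ
      have h1 : insert c {a} ⊆ Z := hcP ▸ hbelow Z hZ c hcZ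
      have haZ : ({a} : Finset (Fin n)) ⊆ Z := (Finset.subset_insert _ _).trans h1
      rcases chain_below h0 hsat.1 haF hrF hZ haZ (Finset.singleton_subset_iff.2 hrZ) with h | h
      · exact hra (by simpa using h : a = r).symm
      · exact hra (by simpa using h : r = a)
    have hS : ({c, r} : Finset (Fin n)) ∉ F := fun h => hnoZ _ h (by simp) (by simp)
    rcases sat_cases h0 hsat hS with ⟨X, hX, Y, hY, hXS, hYS, hXY, hYX⟩ | ⟨Y, hY, Z, hZ, hYZ, hSZ, hYS, hSY⟩
    · -- a member strictly inside `{c, r}` does not contain `c`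
      have hsmall : ∀ T ∈ F, T ⊂ ({c, r} : Finset (Fin n)) → T ⊆ {r} := by
        intro T hT hTS x hx
        have hxm := hTS.1 hx
        rw [Finset.mem_insert, Finset.mem_singleton] at hxm
        rcases hxm with rfl | rfl
        · exfalso
          by_cases hrT : r ∈ T
          · exact hnoZ T hT hx hrT
          · apply hcnot
            have : T = {x} := by
              apply Finset.Subset.antisymm
              · intro y hy
                have hym := hTS.1 hy
                rw [Finset.mem_insert, Finset.mem_singleton] at hym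
                rcases hym with rfl | rfl
                · exact Finset.mem_singleton_self _
                · exact absurd hy hrT
              · exact Finset.singleton_subset_iff.2 hx
            rw [← this]; exact hT
        · exact Finset.mem_singleton_self _
      have h1 := hsmall X hX hXS
      have h2 := hsmall Y hY hYS
      rw [Finset.subset_singleton_iff] at h1 h2
      rcases h1 with rfl | rfl
      · exact hXY (Finset.empty_subset _)
      · rcases h2 with rfl | rfl
        · exact hYX (Finset.empty_subset _)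
        · exact hXY subset_rfl
    · exact hnoZ Z hZ (hSZ.1 (by simp)) (hSZ.1 (by simp))
  · -- one root
    push Not at hone
    have hcont : ∀ Z ∈ F, Z ≠ ∅ → a ∈ Z := by
      intro Z
      induction Z using Finset.strongInduction with
      | H Z ih =>
        intro hZ hne
        obtain ⟨k, hk⟩ := hform Z hZ hne
        by_cases hP0 : P k = ∅
        · have hZk : Z = {k} := by rw [← hk, hP0]; rfl
          have hka : k = a := by
            by_contra hka
            exact hone k hka (hZk ▸ hZ)
          rw [hZk, hka]; exact Finset.mem_singleton_self a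
        · have hlt : P k ⊂ Z := by
            rw [← hk]
            exact Finset.ssubset_insert (hiP k)
          exact hlt.1 (ih (P k) hlt (hPF k) hP0)
    have hu0 : u ≠ ∅ := fun h => huv (h ▸ Finset.empty_subset _)
    have hv0 : v ≠ ∅ := fun h => hvu (h ▸ Finset.empty_subset _)
    obtain ⟨x, hx⟩ := hform u hu hu0
    obtain ⟨y, hy⟩ := hform v hv hv0
    have hxa : x ≠ a := by
      rintro rfl
      have : u = {x} := by rw [← hx]; exact hsing x haF
      exact huv (this ▸ Finset.singleton_subset_iff.2 (hcont v hv hv0))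
    have hya : y ≠ a := by
      rintro rfl
      have : v = {y} := by rw [← hy]; exact hsing y haF
      exact hvu (this ▸ Finset.singleton_subset_iff.2 (hcont u hu hu0))
    have haS : a ∉ ({x, y} : Finset (Fin n)) := by
      simp only [Finset.mem_insert, Finset.mem_singleton, not_or]
      exact ⟨fun h => hxa h.symm, fun h => hya h.symm⟩
    have hS : ({x, y} : Finset (Fin n)) ∉ F := fun h => haS (hcont _ h (by simp))
    rcases sat_cases h0 hsat hS with ⟨X, hX, Y, hY, hXS, hYS, hXY, hYX⟩ | ⟨Y, hY, Z, hZ, hYZ, hSZ, hYS, hSY⟩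
    · have hX0 : X ≠ ∅ := fun h => hXY (h ▸ Finset.empty_subset _)
      exact haS (hXS.1 (hcont X hX hX0))
    · have h1 : u ⊆ Z := hx ▸ hbelow Z hZ x (hSZ.1 (by simp))
      have h2 : v ⊆ Z := hy ▸ hbelow Z hZ y (hSZ.1 (by simp))
      rcases chain_below h0 hsat.1 hu hv hZ h1 h2 with h | h
      · exact huv h
      · exact hvu h

/-- A chain with `n + 1` members is a maximal chain. -/
theorem isMaxChain_of_card {F : Finset (Finset (Fin n))} (hcard : F.card = n + 1)
    (hch : ∀ u ∈ F, ∀ v ∈ F, u ⊆ v ∨ v ⊆ u) :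
    IsMaxChain (· ⊆ ·) (F : Set (Finset (Fin n))) := by
  classical
  refine ⟨fun u hu v hv _ => hch u hu v hv, ?_⟩
  intro t ht hFt
  apply Set.Subset.antisymm hFt
  -- `t` is finite with at most `n + 1` elements
  let T : Finset (Finset (Fin n)) := Finset.univ.filter (fun u => u ∈ t)
  have hT : (T : Set (Finset (Fin n))) = t := by ext u; simp [T]
  have hFT : F ⊆ T := by
    intro u hu
    simp only [T, Finset.mem_filter, Finset.mem_univ, true_and]
    exact hFt hu
  have hTcard : T.card ≤ n + 1 := by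
    have hinj : Set.InjOn Finset.card (T : Set (Finset (Fin n))) := by
      intro u hu v hv huv
      rw [hT] at hu hv
      by_contra hne
      rcases ht hu hv hne with h | h
      · exact hne (Finset.eq_of_subset_of_card_le h huv.ge)
      · exact hne (Finset.eq_of_subset_of_card_le h huv.le).symm
    calc T.card = (T.image Finset.card).card := (Finset.card_image_of_injOn hinj).symm
      _ ≤ (Finset.range (n + 1)).card := by
          apply Finset.card_le_card
          intro k hk
          rw [Finset.mem_image] at hk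
          obtain ⟨u, -, rfl⟩ := hk
          rw [Finset.mem_range]
          have := Finset.card_le_univ u
          rw [Fintype.card_fin] at this
          omega
      _ = n + 1 := Finset.card_range _
  have hEq : F = T := Finset.eq_of_subset_of_card_le hFT (by omega)
  intro u hu
  rw [← hT, ← hEq] at hu
  exact hu

theorem main_empty {F : Finset (Finset (Fin n))} (h0 : ∅ ∈ F) (hsat : DiamondSaturated F)
    (hcard : F.card = n + 1) :
    (∀ u ∈ F, ∀ v ∈ F, u ⊆ v ∨ v ⊆ u) ∨
      F = insert ∅ (Finset.univ.image (fun i : Fin n => ({i} : Finset (Fin n)))) := by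
  classical
  rcases classify_empty h0 hsat hcard with h | h
  · exact Or.inl h
  · right
    apply Finset.eq_of_subset_of_card_le
    · intro u hu
      have h1 := h u hu
      rw [Finset.mem_insert]
      rcases Nat.lt_or_ge u.card 1 with h2 | h2
      · left; exact Finset.card_eq_zero.1 (by omega)
      · right
        obtain ⟨x, hx⟩ := Finset.card_eq_one.1 (by omega : u.card = 1)
        rw [hx]
        exact Finset.mem_image.2 ⟨x, Finset.mem_univ x, rfl⟩
    · rw [hcard]
      calc _ ≤ (Finset.univ.image (fun i : Fin n => ({i} : Finset (Fin n)))).card + 1 :=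
            Finset.card_insert_le _ _
        _ ≤ (Finset.univ : Finset (Fin n)).card + 1 := by
            gcongr
            exact Finset.card_image_le
        _ = n + 1 := by rw [Finset.card_univ, Fintype.card_fin]

/-- Complementation preserves diamonds. -/
theorem hasDiamond_compl {F : Finset (Finset (Fin n))} (h : HasDiamond F) :
    HasDiamond (F.image compl) := by
  classical
  rw [hasDiamond_iff] at h ⊢
  obtain ⟨A, hA, X, hX, Y, hY, B, hB, hAX, hAY, hXB, hYB, hXY, hYX⟩ := h
  refine ⟨Bᶜ, Finset.mem_image_of_mem _ hB, Xᶜ, Finset.mem_image_of_mem _ hX,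
    Yᶜ, Finset.mem_image_of_mem _ hY, Aᶜ, Finset.mem_image_of_mem _ hA, ?_, ?_, ?_, ?_, ?_, ?_⟩
  · exact compl_lt_compl_iff_lt.2 hXB
  · exact compl_lt_compl_iff_lt.2 hYB
  · exact compl_lt_compl_iff_lt.2 hAX
  · exact compl_lt_compl_iff_lt.2 hAY
  · intro h; exact hYX (compl_le_compl_iff_le.1 h)
  · intro h; exact hXY (compl_le_compl_iff_le.1 h)

theorem image_compl_compl (F : Finset (Finset (Fin n))) : (F.image compl).image compl = F := by
  classical
  rw [Finset.image_image]
  simp

theorem saturated_compl {F : Finset (Finset (Fin n))} (h : DiamondSaturated F) :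
    DiamondSaturated (F.image compl) := by
  classical
  refine ⟨fun hd => h.1 ?_, fun S hS => ?_⟩
  · have := hasDiamond_compl hd
    rwa [image_compl_compl] at this
  · have hS' : Sᶜ ∉ F := by
      intro hm
      apply hS
      rw [Finset.mem_image]
      exact ⟨Sᶜ, hm, compl_compl S⟩
    have := hasDiamond_compl (h.2 _ hS')
    rwa [Finset.image_insert, compl_compl] at this

/-- Families containing `∅` or `[n]`. -/
theorem empty_or_full (n : ℕ) (F : Finset (Finset (Fin n))) (hF : DiamondSaturated F)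
    (hcard : F.card = n + 1) (hmem : ∅ ∈ F ∨ Finset.univ ∈ F) :
    IsMaxChain (· ⊆ ·) (F : Set (Finset (Fin n))) ∨
      F = insert ∅ (Finset.univ.image (fun i : Fin n => ({i} : Finset (Fin n)))) ∨
      F = insert Finset.univ (Finset.univ.image (fun i : Fin n => ({i}ᶜ : Finset (Fin n)))) := by
  classical
  rcases hmem with h0 | h1
  · rcases main_empty h0 hF hcard with h | h
    · exact Or.inl (isMaxChain_of_card hcard h)
    · exact Or.inr (Or.inl h)
  · have hF' := saturated_compl hF
    have h0' : ∅ ∈ F.image compl := by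
      rw [Finset.mem_image]
      exact ⟨Finset.univ, h1, Finset.compl_univ⟩
    have hcard' : (F.image compl).card = n + 1 := by
      rw [Finset.card_image_of_injective _ compl_injective, hcard]
    rcases main_empty h0' hF' hcard' with h | h
    · left
      apply isMaxChain_of_card hcard
      intro u hu v hv
      rcases h uᶜ (Finset.mem_image_of_mem _ hu) vᶜ (Finset.mem_image_of_mem _ hv) with h' | h'
      · exact Or.inr (compl_le_compl_iff_le.1 h')
      · exact Or.inl (compl_le_compl_iff_le.1 h')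
    · right; right
      have := congrArg (fun G => G.image compl) h
      rw [image_compl_compl, Finset.image_insert, Finset.compl_empty, Finset.image_image] at this
      exact this


/-- If every direction occurs as a step in `F` and `|F| = n + 1`, then every function on `F` is
affine in the indicator vector. -/
theorem affine_of_card {F : Finset (Finset (Fin n))} (hcard : F.card = n + 1)
    (P : Fin n → Finset (Fin n)) (hPF : ∀ i, P i ∈ F) (hiP : ∀ i, i ∉ P i)
    (hZF : ∀ i, insert i (P i) ∈ F) (f : Finset (Fin n) → ℚ) :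
    ∃ (c : Fin n → ℚ) (d : ℚ), ∀ v ∈ F, f v = d + ∑ i ∈ v, c i := by
  classical
  let Φ : ((Fin n → ℚ) × ℚ) →ₗ[ℚ] ({v // v ∈ F} → ℚ) :=
    { toFun := fun cd v => cd.2 + ∑ i ∈ v.1, cd.1 i
      map_add' := by
        intro a b
        funext v
        simp only [Prod.fst_add, Prod.snd_add, Pi.add_apply, Finset.sum_add_distrib]
        ring
      map_smul' := by
        intro r a
        funext v
        simp only [Prod.smul_fst, Prod.smul_snd, Pi.smul_apply, smul_eq_mul, RingHom.id_apply,
          ← Finset.mul_sum]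
        ring }
  have hinj : Function.Injective Φ := by
    rw [← LinearMap.ker_eq_bot, LinearMap.ker_eq_bot']
    intro cd h
    have hv : ∀ v ∈ F, cd.2 + ∑ i ∈ v, cd.1 i = 0 := fun v hv => congrFun h ⟨v, hv⟩
    have hc : ∀ i, cd.1 i = 0 := by
      intro i
      have h1 := hv _ (hPF i)
      have h2 := hv _ (hZF i)
      rw [Finset.sum_insert (hiP i)] at h2
      linarith
    have hd : cd.2 = 0 := by
      obtain ⟨v, hvF⟩ : F.Nonempty := Finset.card_pos.1 (by omega)
      have := hv v hvF
      simpa [hc] using this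
    exact Prod.ext (funext hc) hd
  have hfin : Module.finrank ℚ ((Fin n → ℚ) × ℚ) = Module.finrank ℚ ({v // v ∈ F} → ℚ) := by
    rw [Module.finrank_prod, Module.finrank_pi, Module.finrank_pi, Module.finrank_self,
      Fintype.card_fin, Fintype.card_coe, hcard]
  have hsurj := (LinearMap.injective_iff_surjective_of_finrank_eq_finrank hfin).1 hinj
  obtain ⟨cd, hcd⟩ := hsurj (fun v => f v.1)
  exact ⟨cd.1, cd.2, fun v hv => (congrFun hcd ⟨v, hv⟩).symm⟩

/-- For two elements `k ≠ l`, not all four traces on `{k, l}` occur in `F`. -/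
theorem not_four {F : Finset (Finset (Fin n))} (hcard : F.card = n + 1)
    (P : Fin n → Finset (Fin n)) (hPF : ∀ i, P i ∈ F) (hiP : ∀ i, i ∉ P i)
    (hZF : ∀ i, insert i (P i) ∈ F) {k l : Fin n} (hkl : k ≠ l)
    (h00 : ∃ v ∈ F, k ∉ v ∧ l ∉ v) (h10 : ∃ v ∈ F, k ∈ v ∧ l ∉ v)
    (h01 : ∃ v ∈ F, k ∉ v ∧ l ∈ v) (h11 : ∃ v ∈ F, k ∈ v ∧ l ∈ v) : False := by
  classical
  obtain ⟨c, d, hf⟩ := affine_of_card hcard P hPF hiP hZF
    (fun v => if k ∈ v ∧ l ∈ v then 1 else 0)
  have hc : ∀ i, i ≠ k → i ≠ l → c i = 0 := by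
    intro i hik hil
    have h1 := hf _ (hPF i)
    have h2 := hf _ (hZF i)
    rw [Finset.sum_insert (hiP i)] at h2
    have e : (k ∈ insert i (P i) ∧ l ∈ insert i (P i)) ↔ (k ∈ P i ∧ l ∈ P i) := by
      rw [Finset.mem_insert, Finset.mem_insert]
      constructor
      · rintro ⟨h3 | h3, h4 | h4⟩
        · exact absurd h3.symm hik
        · exact absurd h3.symm hik
        · exact absurd h4.symm hil
        · exact ⟨h3, h4⟩
      · rintro ⟨h3, h4⟩
        exact ⟨Or.inr h3, Or.inr h4⟩
    simp only [e] at h2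
    linarith
  have hsum : ∀ v : Finset (Fin n),
      ∑ i ∈ v, c i = (if k ∈ v then c k else 0) + (if l ∈ v then c l else 0) := by
    intro v
    have h1 : ∀ i ∈ v, c i = (if i = k then c i else 0) + (if i = l then c i else 0) := by
      intro i _
      by_cases h2 : i = k
      · have h3 : i ≠ l := fun h => hkl (h2 ▸ h)
        simp [h2, hkl]
      · by_cases h3 : i = l
        · simp [h3, Ne.symm hkl]
        · simp [h2, h3, hc i h2 h3]
    rw [Finset.sum_congr rfl h1, Finset.sum_add_distrib, Finset.sum_ite_eq', Finset.sum_ite_eq']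
  obtain ⟨v0, hv0, a0, b0⟩ := h00
  obtain ⟨v1, hv1, a1, b1⟩ := h10
  obtain ⟨v2, hv2, a2, b2⟩ := h01
  obtain ⟨v3, hv3, a3, b3⟩ := h11
  have e0 := hf v0 hv0
  have e1 := hf v1 hv1
  have e2 := hf v2 hv2
  have e3 := hf v3 hv3
  rw [hsum] at e0 e1 e2 e3
  simp only [a0, b0, a1, b1, a2, b2, a3, b3, and_self, and_false, false_and, if_true, if_false]
    at e0 e1 e2 e3
  linarith

/-- If no member of `F` is contained in `S`, then `S` can only be the bottom of a new diamond. -/
theorem only_bottom {F : Finset (Finset (Fin n))} (hsat : DiamondSaturated F)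
    {S : Finset (Fin n)} (h : ∀ v ∈ F, ¬ v ⊆ S) :
    ∃ X ∈ F, ∃ Y ∈ F, ∃ V ∈ F, S ⊆ X ∧ S ⊆ Y ∧ X ⊂ V ∧ Y ⊂ V ∧ ¬ X ⊆ Y ∧ ¬ Y ⊆ X := by
  have hS : S ∉ F := fun hm => h S hm subset_rfl
  have hd := hsat.2 S hS
  rw [hasDiamond_iff] at hd
  obtain ⟨A, hA, X, hX, Y, hY, B, hB, hAX, hAY, hXB, hYB, hXY, hYX⟩ := hd
  rw [Finset.mem_insert] at hA hX hY hB
  by_cases hAS : A = S
  · subst hAS
    exact ⟨X, hX.resolve_left hAX.ne', Y, hY.resolve_left hAY.ne',
      B, hB.resolve_left (hAX.trans hXB).ne', hAX.1, hAY.1, hXB, hYB, hXY, hYX⟩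
  · exfalso
    have hA' : A ∈ F := hA.resolve_left hAS
    have hX' : X ∈ F := hX.resolve_left (fun hh => h A hA' (hh ▸ hAX.1))
    have hY' : Y ∈ F := hY.resolve_left (fun hh => h A hA' (hh ▸ hAY.1))
    have hB' : B ∈ F := hB.resolve_left (fun hh => h A hA' (hh ▸ (hAX.trans hXB).1))
    apply hsat.1
    rw [hasDiamond_iff]
    exact ⟨A, hA', X, hX', Y, hY', B, hB', hAX, hAY, hXB, hYB, hXY, hYX⟩

/-- If `∅, [n] ∉ F`, then not every direction occurs. -/
theorem no_type_zero {F : Finset (Finset (Fin n))} (hsat : DiamondSaturated F)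
    (hcard : F.card = n + 1) (h0 : ∅ ∉ F) (h1 : Finset.univ ∉ F)
    (hstep : ∀ i, ∃ P ∈ F, i ∉ P ∧ insert i P ∈ F) : False := by
  classical
  choose P hPF hiP hZF using hstep
  have hlt : ∀ i, (P i).card < (insert i (P i)).card := by
    intro i
    rw [Finset.card_insert_of_notMem (hiP i)]
    omega
  have hne : F.Nonempty := Finset.card_pos.1 (by omega)
  -- two steps with the same top
  have hC : ∃ i j, i ≠ j ∧ insert i (P i) = insert j (P j) := by
    by_contra hcon
    push Not at hcon
    have hinj : Function.Injective (fun i => insert i (P i)) := by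
      intro i j hij
      by_contra hne'
      exact hcon i j hne' hij
    obtain ⟨v, hv, hvmin⟩ := Finset.exists_min_image F Finset.card hne
    have hv0 : v ≠ ∅ := fun h => h0 (h ▸ hv)
    obtain ⟨x, hx⟩ := Finset.nonempty_iff_ne_empty.2 hv0
    obtain ⟨w, hw, hwmin⟩ := Finset.exists_min_image (F.filter (fun u => x ∉ u)) Finset.card
      ⟨P x, Finset.mem_filter.2 ⟨hPF x, hiP x⟩⟩
    rw [Finset.mem_filter] at hw
    have hwv : w ≠ v := fun h => hw.2 (h ▸ hx)
    have hsub : Finset.univ.image (fun i => insert i (P i)) ⊆ (F.erase v).erase w := by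
      intro u hu
      rw [Finset.mem_image] at hu
      obtain ⟨i, -, rfl⟩ := hu
      refine Finset.mem_erase.2 ⟨?_, Finset.mem_erase.2 ⟨?_, hZF i⟩⟩
      · intro h
        have hxP : x ∉ P i := fun hh => hw.2 (h ▸ Finset.mem_insert_of_mem hh)
        have h2 := hwmin (P i) (Finset.mem_filter.2 ⟨hPF i, hxP⟩)
        have h3 := hlt i
        rw [h] at h3
        omega
      · intro h
        have h2 := hvmin (P i) (hPF i)
        have h3 := hlt i
        rw [h] at h3
        omega
    have h4 := Finset.card_le_card hsub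
    rw [Finset.card_image_of_injective _ hinj, Finset.card_univ, Fintype.card_fin,
      Finset.card_erase_of_mem (Finset.mem_erase.2 ⟨hwv, hw.1⟩), Finset.card_erase_of_mem hv,
      hcard] at h4
    have h5 : 0 < n := Nat.pos_of_ne_zero (by rintro rfl; exact x.elim0)
    omega
  -- two steps with the same bottom
  have hD : ∃ k l, k ≠ l ∧ P k = P l := by
    by_contra hcon
    push Not at hcon
    have hinj : Function.Injective P := by
      intro i j hij
      by_contra hne'
      exact hcon i j hne' hij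
    obtain ⟨v, hv, hvmax⟩ := Finset.exists_max_image F Finset.card hne
    have hv0 : v ≠ Finset.univ := fun h => h1 (h ▸ hv)
    obtain ⟨x, hx⟩ : ∃ x, x ∉ v := by
      by_contra hh
      push Not at hh
      exact hv0 (Finset.eq_univ_iff_forall.2 hh)
    obtain ⟨w, hw, hwmax⟩ := Finset.exists_max_image (F.filter (fun u => x ∈ u)) Finset.card
      ⟨insert x (P x), Finset.mem_filter.2 ⟨hZF x, Finset.mem_insert_self _ _⟩⟩
    rw [Finset.mem_filter] at hw
    have hwv : w ≠ v := fun h => hx (h ▸ hw.2)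
    have hsub : Finset.univ.image P ⊆ (F.erase v).erase w := by
      intro u hu
      rw [Finset.mem_image] at hu
      obtain ⟨i, -, rfl⟩ := hu
      refine Finset.mem_erase.2 ⟨?_, Finset.mem_erase.2 ⟨?_, hPF i⟩⟩
      · intro h
        have hxP : x ∈ P i := h ▸ hw.2
        have h2 := hwmax (insert i (P i))
          (Finset.mem_filter.2 ⟨hZF i, Finset.mem_insert_of_mem hxP⟩)
        have h3 := hlt i
        rw [← h] at h2
        omega
      · intro h
        have h2 := hvmax (insert i (P i)) (hZF i)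
        have h3 := hlt i
        rw [← h] at h2
        omega
    have h4 := Finset.card_le_card hsub
    rw [Finset.card_image_of_injective _ hinj, Finset.card_univ, Fintype.card_fin,
      Finset.card_erase_of_mem (Finset.mem_erase.2 ⟨hwv, hw.1⟩), Finset.card_erase_of_mem hv,
      hcard] at h4
    have h5 : 0 < n := Nat.pos_of_ne_zero (by rintro rfl; exact x.elim0)
    omega
  obtain ⟨i, j, hij, hZ⟩ := hC
  obtain ⟨k, l, hkl, hP⟩ := hD
  have hjp : j ∈ insert i (P i) := hZ ▸ Finset.mem_insert_self _ _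
  have hCij : ∀ v ∈ F, i ∈ v ∨ j ∈ v := by
    intro v hv
    by_contra hcon
    push Not at hcon
    refine not_four hcard P hPF hiP hZF hij ⟨v, hv, hcon⟩ ⟨P j, hPF j, ?_, hiP j⟩
      ⟨P i, hPF i, hiP i, ?_⟩ ⟨insert i (P i), hZF i, Finset.mem_insert_self _ _, hjp⟩
    · have : i ∈ insert j (P j) := hZ ▸ Finset.mem_insert_self _ _
      exact (Finset.mem_insert.1 this).resolve_left hij
    · exact (Finset.mem_insert.1 hjp).resolve_left hij.symm
  have hDkl : ∀ v ∈ F, k ∈ v → l ∈ v → False := by
    intro v hv hk hl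
    refine not_four hcard P hPF hiP hZF hkl ⟨P k, hPF k, hiP k, hP ▸ hiP l⟩
      ⟨insert k (P k), hZF k, Finset.mem_insert_self _ _, ?_⟩
      ⟨insert l (P l), hZF l, ?_, Finset.mem_insert_self _ _⟩ ⟨v, hv, hk, hl⟩
    · intro h
      rcases Finset.mem_insert.1 h with h | h
      · exact hkl h.symm
      · exact hiP l (hP ▸ h)
    · intro h
      rcases Finset.mem_insert.1 h with h | h
      · exact hkl h
      · exact hiP k (hP ▸ h)
  -- a covering pair and a disjoint pair that do not meet
  have hK : ∀ a b e f : Fin n, (∀ v ∈ F, a ∈ v ∨ b ∈ v) → (∀ v ∈ F, e ∈ v → f ∈ v → False) →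
      a ≠ e → a ≠ f → b ≠ e → b ≠ f → False := by
    intro a b e f hab hef h1 h2 h3 h4
    obtain ⟨X, hX, -, -, -, -, hSX, -⟩ := only_bottom hsat (S := {e, f}) (by
      intro v hv hvS
      rcases hab v hv with h | h
      · have := hvS h
        rw [Finset.mem_insert, Finset.mem_singleton] at this
        rcases this with h5 | h5
        · exact h1 h5
        · exact h2 h5
      · have := hvS h
        rw [Finset.mem_insert, Finset.mem_singleton] at this
        rcases this with h5 | h5
        · exact h3 h5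
        · exact h4 h5)
    exact hef X hX (hSX (by simp)) (hSX (by simp))
  -- a covering pair and a disjoint pair that meet
  have hM : ∀ e b f : Fin n, (∀ v ∈ F, e ∈ v ∨ b ∈ v) → (∀ v ∈ F, e ∈ v → f ∈ v → False) →
      f ≠ e → f ≠ b → False := by
    intro e b f heb hef h1 h2
    obtain ⟨X, hX, Y, hY, V, hV, hSX, hSY, hXV, hYV, hXY, hYX⟩ :=
      only_bottom hsat (S := {f}) (by
        intro v hv hvS
        rcases heb v hv with h | h
        · exact h1 (Finset.mem_singleton.1 (hvS h)).symm
        · exact h2 (Finset.mem_singleton.1 (hvS h)).symm)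
    rw [Finset.singleton_subset_iff] at hSX hSY
    obtain ⟨c, hcX, hcY⟩ := Finset.not_subset.1 hXY
    obtain ⟨a, haY, haX⟩ := Finset.not_subset.1 hYX
    have hac : a ≠ c := fun h => haX (h ▸ hcX)
    have hcov : ∀ v ∈ F, a ∈ v ∨ c ∈ v := by
      intro v hv
      by_contra hcon
      push Not at hcon
      exact not_four hcard P hPF hiP hZF hac ⟨v, hv, hcon⟩ ⟨Y, hY, haY, hcY⟩
        ⟨X, hX, haX, hcX⟩ ⟨V, hV, hYV.1 haY, hXV.1 hcX⟩
    have heV : e ∉ V := fun h => hef V hV h (hXV.1 hSX)
    refine hK a c e f hcov hef ?_ ?_ ?_ ?_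
    · exact fun h => heV (h ▸ hYV.1 haY)
    · exact fun h => haX (h ▸ hSX)
    · exact fun h => heV (h ▸ hXV.1 hcX)
    · exact fun h => hcY (h ▸ hSY)
  have hDlk : ∀ v ∈ F, l ∈ v → k ∈ v → False := fun v hv hl hk => hDkl v hv hk hl
  have hCji : ∀ v ∈ F, j ∈ v ∨ i ∈ v := fun v hv => (hCij v hv).symm
  have hip : i ∈ insert i (P i) := Finset.mem_insert_self _ _
  by_cases c1 : i = k
  · subst c1
    exact hM i j l hCij hDkl hkl.symm (fun h => hDkl _ (hZF i) hip (h ▸ hjp))
  by_cases c2 : i = l
  · subst c2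
    exact hM i j k hCij hDlk hkl (fun h => hDlk _ (hZF i) hip (h ▸ hjp))
  by_cases c3 : j = k
  · subst c3
    exact hM j i l hCji hDkl hkl.symm (fun h => hDkl _ (hZF i) hjp (h ▸ hip))
  by_cases c4 : j = l
  · subst c4
    exact hM j i k hCji hDlk hkl (fun h => hDlk _ (hZF i) hjp (h ▸ hip))
  exact hK i j k l hCij hDkl c1 c2 c3 c4

/-- **Main theorem.** Let `F ⊆ P([n])` be diamond-saturated with `n + 1` members. Suppose that
`∅ ∈ F`, or `[n] ∈ F`, or for every `i` there are two members of `F` of the form `P` and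
`P ∪ {i}` with `i ∉ P`. Then `F` is a maximal chain, or `F = {∅} ∪ {{i} : i ∈ [n]}`, or
`F = {[n]} ∪ {[n] \ {i} : i ∈ [n]}`. -/
theorem result (n : ℕ) (F : Finset (Finset (Fin n))) (hF : DiamondSaturated F)
    (hcard : F.card = n + 1)
    (h : ∅ ∈ F ∨ Finset.univ ∈ F ∨ ∀ i : Fin n, ∃ P ∈ F, i ∉ P ∧ insert i P ∈ F) :
    IsMaxChain (· ⊆ ·) (F : Set (Finset (Fin n))) ∨
      F = insert ∅ (Finset.univ.image (fun i : Fin n => ({i} : Finset (Fin n)))) ∨
      F = insert Finset.univ (Finset.univ.image (fun i : Fin n => ({i}ᶜ : Finset (Fin n)))) := by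
  by_cases h0 : ∅ ∈ F
  · exact empty_or_full n F hF hcard (Or.inl h0)
  by_cases h1 : Finset.univ ∈ F
  · exact empty_or_full n F hF hcard (Or.inr h1)
  rcases h with h | h | h
  · exact absurd h h0
  · exact absurd h h1
  · exact (no_type_zero hF hcard h0 h1 h).elim

end Pool.Agent.Results.MP_99eff6_co.AllDirections
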